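import Mathlib
import Pool.Agent.H958.RL.Stm2
import Pool.Graph.R_seed8.W571.RD.Pind

/-! RL2-Mono (for helper958): `Pr` is increasing in `p` for increasing events. -/

set_option autoImplicit false

namespace Pool.Agent.H909.RL.Mono

open Finset
open scoped Classical
open Pool.Agent.W830.RD (Om Pr)
open Pool.Agent.W571.RD.Pind (EX fub Pr_eq ind ind_pos ind_neg)

noncomputable section

variable {α : Type} [DecidableEq α]

omit [DecidableEq α] in
theorem EX_single (p : ℝ) (a : α) (G : Finset α → ℝ) :
    EX p {a} G = (1 - p) * G ∅ + p * G {a} := by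
  unfold EX
  rw [show ({a} : Finset α).powerset = {∅, {a}} from by
    ext E
    rw [Finset.mem_powerset, Finset.subset_singleton_iff, Finset.mem_insert,
      Finset.mem_singleton]]
  rw [Finset.sum_pair (Finset.singleton_ne_empty a).symm]
  simp

omit [DecidableEq α] in
theorem EX_le (p : ℝ) (hp : 0 ≤ p) (hp1 : p ≤ 1) (W : Finset α) (F G : Finset α → ℝ)
    (h : ∀ E ⊆ W, F E ≤ G E) : EX p W F ≤ EX p W G := by
  unfold EX
  refine Finset.sum_le_sum fun E hE => ?_
  refine mul_le_mul_of_nonneg_left (h E (Finset.mem_powerset.1 hE)) ?_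
  exact mul_nonneg (pow_nonneg hp _) (pow_nonneg (sub_nonneg.2 hp1) _)

theorem EX_mono_p (p p' : ℝ) (hp : 0 ≤ p) (hpp : p ≤ p') (hp1 : p' ≤ 1) (W : Finset α) :
    ∀ F : Finset α → ℝ, (∀ E E', E ⊆ E' → E' ⊆ W → F E ≤ F E') → EX p W F ≤ EX p' W F := by
  induction W using Finset.induction_on with
  | empty =>
    intro F _
    unfold EX
    simp
  | insert a s ha ih =>
    intro F hF
    have hins : insert a s = s ∪ {a} := by
      rw [Finset.insert_eq, Finset.union_comm]
    have hd : Disjoint s {a} := Finset.disjoint_singleton_right.2 ha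
    rw [hins, fub p s {a} hd F, fub p' s {a} hd F]
    have hs : s ⊆ insert a s := Finset.subset_insert a s
    have h1 : ∀ E1 ⊆ s, E1 ∪ {a} ⊆ insert a s := by
      intro E1 h
      rw [hins]
      exact Finset.union_subset_union h (Finset.Subset.refl _)
    refine (ih (fun E1 => EX p {a} (fun E2 => F (E1 ∪ E2))) ?_).trans ?_
    · intro E E' hEE hE'
      simp only [EX_single, Finset.union_empty]
      refine add_le_add ?_ ?_
      · exact mul_le_mul_of_nonneg_left (hF E E' hEE (hE'.trans hs))
          (sub_nonneg.2 (hpp.trans hp1))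
      · exact mul_le_mul_of_nonneg_left
          (hF _ _ (Finset.union_subset_union hEE (Finset.Subset.refl _)) (h1 E' hE')) hp
    · refine EX_le p' (hp.trans hpp) hp1 s _ _ fun E1 hE1 => ?_
      simp only [EX_single, Finset.union_empty]
      have h2 : F E1 ≤ F (E1 ∪ {a}) := hF _ _ Finset.subset_union_left (h1 E1 hE1)
      nlinarith [mul_nonneg (sub_nonneg.2 hpp) (sub_nonneg.2 h2)]

theorem main : Pool.Agent.H958.RL.S_MONO := by
  intro p p' n Q hp hpp hp1 hQ
  rw [Pr_eq, Pr_eq]
  refine EX_mono_p p p' hp.le hpp hp1.le (Om n) _ fun E E' hEE hE' => ?_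
  show ind (Q E) ≤ ind (Q E')
  by_cases h : Q E
  · rw [ind_pos h, ind_pos (hQ E E' hEE hE' h)]
  · rw [ind_neg h]
    unfold ind
    split_ifs
    · exact zero_le_one
    · exact le_refl _

end

end Pool.Agent.H909.RL.Mono
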